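import Mathlib
import Pool.Agent.Lib.MP_614955_co.Moves

set_option autoImplicit false

namespace Pool.Agent.Results.MP_614955_co.AlmostDisjointDraw

open Finset Pool.Agent.Lib.MP_614955_co

/-- An `n`-uniform Almost Disjoint hypergraph with at most `2^L` winning sets, `L ≥ n ≥ 2`, and
maximum degree at most `2^n / L^120` is a Strong Draw for the second player: he has a strategy
`τ` (history to next point) such that in every play `m 0, m 1, …` in which the first player moves
legally at even times, his own moves (odd times) are legal and hit every winning set. -/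
theorem result {V : Type*} [Fintype V] [DecidableEq V] [Nonempty V] (F : Finset (Finset V))
    (n L : ℕ) (hn : 2 ≤ n) (hL : n ≤ L)
    (hunif : ∀ A ∈ F, A.card = n)
    (had : ∀ A ∈ F, ∀ B ∈ F, A ≠ B → (A ∩ B).card ≤ 1)
    (hsize : F.card ≤ 2 ^ L)
    (hdeg : ∀ x : V, (F.filter (fun A => x ∈ A)).card * L ^ 120 ≤ 2 ^ n) :
    ∃ τ : List V → V, ∀ m : ℕ → V,
      (∀ k < Fintype.card V, Odd k → m k = τ (List.ofFn (fun i : Fin k => m i.val))) →
      (∀ k < Fintype.card V, Even k → ∀ i < k, m i ≠ m k) →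
      (∀ k < Fintype.card V, Odd k → ∀ i < k, m i ≠ m k) ∧
      ∀ A ∈ F, ∃ k < Fintype.card V, Odd k ∧ m k ∈ A := by
  rcases F.eq_empty_or_nonempty with rfl | ⟨A0, hA0⟩
  · apply strat_of_inv ∅ (fun _ _ => True) trivial (by simp)
    intro M B x _ _ _
    exact ⟨by simp, fun ⟨y, h1, h2⟩ => ⟨y, h1, h2, trivial⟩⟩
  obtain ⟨x0, hx0⟩ : A0.Nonempty := by rw [← card_pos, hunif A0 hA0]; omega
  have hpow : L ^ 120 ≤ 2 ^ n := by
    have h1 := hdeg x0
    have h2 : 1 ≤ (F.filter (fun A => x0 ∈ A)).card :=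
      card_pos.mpr ⟨A0, mem_filter.mpr ⟨hA0, hx0⟩⟩
    nlinarith [Nat.zero_le (L ^ 120)]
  have hlow : ∀ s, 2 ^ s ≤ L → 120 * s ≤ n := by
    intro s hs
    have h1 : (2 ^ s) ^ 120 ≤ 2 ^ n := (Nat.pow_le_pow_left hs 120).trans hpow
    rw [← pow_mul] at h1
    have := (Nat.pow_le_pow_iff_right (by norm_num : 1 < 2)).mp h1
    omega
  have h120 := hlow 1 (by omega)
  have h720 := hlow 6 (by omega)
  obtain ⟨t, ht⟩ : ∃ t, t = Nat.clog 2 L := ⟨_, rfl⟩
  have hLt : L ≤ 2 ^ t := by rw [ht]; exact Nat.le_pow_clog (by norm_num) L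
  have hLt' : 2 ^ (t - 1) < L := by
    rw [ht]; exact Nat.pow_pred_clog_lt_self (by norm_num) (by omega)
  have ht10 : 10 ≤ t := by
    by_contra hc
    have : 2 ^ t ≤ 2 ^ 9 := Nat.pow_le_pow_right (by norm_num) (by omega)
    omega
  have hnt := hlow (t - 1) hLt'.le
  have hn2 : n ≤ 2 ^ t := hL.trans hLt
  obtain ⟨w, hw⟩ : ∃ w, w = 2 ^ t := ⟨_, rfl⟩
  have hw1 : 1 ≤ w := by omega
  have e1 : 2 ^ (t + 1) = 2 * w := by rw [hw]; ring
  have pw : ∀ i k : ℕ, 2 ^ (i * t + k) = 2 ^ k * w ^ i := by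
    intro i k; rw [hw, ← pow_mul, ← pow_add]; congr 1; ring
  rw [← hw] at hn2 hLt
  have w6 : w ≤ w ^ 6 := Nat.le_self_pow (by norm_num) w
  have w26 : w ^ 2 ≤ w ^ 6 := Nat.pow_le_pow_right hw1 (by norm_num)
  let P : Setup V :=
    { F := F, n := n, r := 10 * t + 6, j := (n - 54 * t + 34) / 2, S := 4 * w ^ 4,
      a := 31 * t + 18, d := n - 105 * t, g := 20 * t + 14, L := 2 * w, K := 16 * w ^ 6,
      z := 8 * w ^ 6, unif := hunif, ad := had,
      deg := by
        intro x
        have h1 := hdeg x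
        have h2 : 2 ^ (105 * t) ≤ L ^ 120 := by
          calc 2 ^ (105 * t) ≤ 2 ^ ((t - 1) * 120) := Nat.pow_le_pow_right (by norm_num) (by omega)
            _ = (2 ^ (t - 1)) ^ 120 := by rw [pow_mul]
            _ ≤ L ^ 120 := Nat.pow_le_pow_left hLt'.le 120
        have h3 : 2 ^ n = 2 ^ (n - 105 * t) * 2 ^ (105 * t) := by
          rw [← pow_add]; congr 1; omega
        have h4 := (Nat.mul_le_mul_left (F.filter (fun A => x ∈ A)).card h2).trans h1
        rw [h3] at h4
        exact Nat.le_of_mul_le_mul_right h4 (by positivity)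
      j2 := by omega
      r2 := by omega
      p2 := by
        rw [pw]
        have h1 : n * (4 * w ^ 4) ≤ w * (4 * w ^ 4) := Nat.mul_le_mul_right _ hn2
        have h2 := Nat.pow_le_pow_left h1 2
        have h3 : (w * (4 * w ^ 4)) ^ 2 = 16 * w ^ 10 := by ring
        have h4 : 0 < w ^ 10 := by positivity
        omega
      p3 := by omega
      p4 := by omega
      p5 := by omega
      p5' := by omega
      p6 := by
        have h1 : n * (2 * w) ≤ w * (2 * w) := Nat.mul_le_mul_right _ hn2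
        have h2 := Nat.pow_le_pow_left h1 2
        have h3 : (w * (2 * w)) ^ 2 = 4 * w ^ 4 := by ring
        omega
      p6' := by
        have h1 : n * (n * (4 * w ^ 4)) ≤ w * (w * (4 * w ^ 4)) :=
          Nat.mul_le_mul hn2 (Nat.mul_le_mul_right _ hn2)
        have h3 : w * (w * (4 * w ^ 4)) = 4 * w ^ 6 := by ring
        omega
      p6'' := by
        have h1 : n * (2 * w) ≤ w * (2 * w) := Nat.mul_le_mul_right _ hn2
        have h3 : w * (2 * w) = 2 * w ^ 2 := by ring
        omega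
      p7 := by
        rw [pw]
        have h1 : n * (n * (n * (16 * w ^ 6)) ^ 2) ^ 2 ≤ w * (w * (w * (16 * w ^ 6)) ^ 2) ^ 2 := by
          gcongr
        have h3 : w * (w * (w * (16 * w ^ 6)) ^ 2) ^ 2 = 2 ^ 16 * w ^ 31 := by ring
        omega
      p8 := by
        have h1 : F.card + 1 ≤ 2 * 2 ^ w := by
          have h2 : 2 ^ L ≤ 2 ^ w := Nat.pow_le_pow_right (by norm_num) hLt
          have h3 : 0 < 2 ^ w := by positivity
          omega
        have h2 : 16 * w ^ 6 + 1 ≤ 2 ^ (6 * t + 5) := by rw [pw]; omega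
        have h3 : 2 ^ (6 * t + 5) * 8 ≤ 2 ^ w := by
          rw [show (8 : ℕ) = 2 ^ 3 by norm_num, ← pow_add]
          exact Nat.pow_le_pow_right (by norm_num) (by omega)
        have h4 : (16 * w ^ 6 + 1) * (F.card + 1) ≤ 2 ^ (6 * t + 5) * (2 * 2 ^ w) :=
          Nat.mul_le_mul h2 h1
        have h5 : 2 ^ (2 * w) = 2 ^ w * 2 ^ w := by rw [← pow_add]; congr 1; ring
        have h6 : 2 ^ (6 * t + 5) * 8 * 2 ^ w ≤ 2 ^ w * 2 ^ w := Nat.mul_le_mul_right _ h3
        have h7 : 0 < 2 ^ (6 * t + 5) * 2 ^ w := by positivity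
        rw [h5]
        nlinarith }
  exact P.strong_draw

end Pool.Agent.Results.MP_614955_co.AlmostDisjointDraw
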