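import Mathlib
import Pool.Agent.Lib.MP_614955_co.ADFinal

set_option autoImplicit false

namespace Pool.Agent.Results.MP_614955_co.AlmostDisjointQ1

open Finset Pool.Agent.Lib.MP_614955_co Pool.Agent.Lib.MP_614955_co.ADQ

universe u

/-- For every `δ > 0` there is a constant `c` such that every `n`-uniform Almost Disjoint
hypergraph (`n ≥ 1`, any size) with maximum degree less than `2 ^ (n - c * n ^ δ)` is a Strong Draw
for the second player: he has a strategy `τ` (history to next point) such that in every play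
`m 0, m 1, …` in which the first player moves legally at even times, his own moves (odd times) are
legal and hit every winning set. -/
theorem result (δ : ℝ) (hδ : 0 < δ) : ∃ c : ℝ, ∀ (V : Type u) [Fintype V] [DecidableEq V]
    [Nonempty V] (F : Finset (Finset V)) (n : ℕ), 1 ≤ n → (∀ A ∈ F, A.card = n) →
    (∀ A ∈ F, ∀ B ∈ F, A ≠ B → (A ∩ B).card ≤ 1) →
    (∀ x : V, ((F.filter (fun A => x ∈ A)).card : ℝ) < (2 : ℝ) ^ ((n : ℝ) - c * (n : ℝ) ^ δ)) →
    ∃ τ : List V → V, ∀ m : ℕ → V,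
      (∀ k < Fintype.card V, Odd k → m k = τ (List.ofFn (fun i : Fin k => m i.val))) →
      (∀ k < Fintype.card V, Even k → ∀ i < k, m i ≠ m k) →
      (∀ k < Fintype.card V, Odd k → ∀ i < k, m i ≠ m k) ∧
      ∀ A ∈ F, ∃ k < Fintype.card V, Odd k ∧ m k ∈ A := by
  obtain ⟨C, hC1, hC⟩ := draw_of_params.{u} ⌈18 / δ⌉₊
  have hC' : (1 : ℝ) ≤ C := by exact_mod_cast hC1
  refine ⟨4 * (C * (4 / δ + 1) * 2) + C ^ 2, ?_⟩
  intro V _ _ _ F n hn hunif had hdeg
  have hn' : (1 : ℝ) ≤ n := by exact_mod_cast hn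
  have hn0 : (0 : ℝ) < n := by linarith
  set s := (n : ℝ) ^ (δ / 2) with hs
  have s1 : 1 ≤ s := Real.one_le_rpow hn' (by linarith)
  have hss : s * s = (n : ℝ) ^ δ := by rw [hs, ← Real.rpow_add hn0]; congr 1; ring
  set b := ⌈s⌉₊ with hb
  set m := Nat.log 2 n + 1 with hm
  have hb2 : (b : ℝ) ≤ 2 * s := by have := Nat.ceil_lt_add_one (a := s) (by linarith); linarith
  have hm2 : (m : ℝ) ≤ (4 / δ + 1) * s := by
    have a1 : ((2 : ℝ)) ^ (Nat.log 2 n) ≤ n := by exact_mod_cast Nat.pow_log_le_self 2 (by omega)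
    have a2 := Real.log_le_log (by positivity) a1
    rw [Real.log_pow] at a2
    have a3 := Real.log_le_rpow_div hn0.le (show 0 < δ / 2 by linarith)
    have a4 := Real.log_two_gt_d9
    have a5 : (0 : ℝ) ≤ Nat.log 2 n := by positivity
    have e : (4 / δ + 1) * s = 2 * (s / (δ / 2)) + s := by field_simp; ring
    rw [hm, e]
    push_cast
    nlinarith
  have hg : ((C * m * b : ℕ) : ℝ) ≤ C * (4 / δ + 1) * 2 * (n : ℝ) ^ δ := by
    push_cast
    rw [← hss]
    calc (C : ℝ) * m * b ≤ C * ((4 / δ + 1) * s) * (2 * s) :=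
          mul_le_mul (mul_le_mul_of_nonneg_left hm2 (by positivity)) hb2 (by positivity) (by positivity)
      _ = _ := by ring
  have p0 : 0 ≤ C * (4 / δ + 1) * 2 * (n : ℝ) ^ δ := by positivity
  have p1 : (C : ℝ) ^ 2 ≤ C ^ 2 * (n : ℝ) ^ δ :=
    le_mul_of_one_le_right (by positivity) (by rw [← hss]; nlinarith)
  have p2 : (0 : ℝ) ≤ C ^ 2 := by positivity
  by_cases hbig : 4 * (C * m * b) ≤ n ∧ C ^ 2 < n
  · refine hC V F n b m hn (Nat.lt_pow_succ_log_self (by norm_num) n) ?_ ?_ hbig.1 hunif had ?_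
    · have a1 : (n : ℝ) ^ 9 ≤ (b : ℝ) ^ (⌈18 / δ⌉₊ + 1) := by
        refine le_trans ?_ (pow_le_pow_left₀ (by linarith) (Nat.le_ceil s) _)
        rw [hs, ← Real.rpow_natCast, ← Real.rpow_natCast, ← Real.rpow_mul hn0.le]
        refine Real.rpow_le_rpow_of_exponent_le hn' ?_
        have a2 := Nat.le_ceil (18 / δ)
        rw [div_le_iff₀ hδ] at a2
        push_cast
        nlinarith
      have a3 : n ^ 9 ≤ b ^ (⌈18 / δ⌉₊ + 1) := by exact_mod_cast a1
      refine lt_of_lt_of_le ?_ a3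
      calc (C * n ^ 4) ^ 2 = C ^ 2 * n ^ 8 := by ring
        _ < n * n ^ 8 := Nat.mul_lt_mul_of_pos_right hbig.2 (by positivity)
        _ = n ^ 9 := by ring
    · have a1 : 1 < n := lt_of_le_of_lt (Nat.one_le_pow _ _ hC1) hbig.2
      have a2 : 1 < s := Real.one_lt_rpow (by exact_mod_cast a1) (by linarith)
      exact Nat.lt_ceil.mpr (by exact_mod_cast a2)
    · intro x
      have a1 : ((F.filter (fun A => x ∈ A)).card : ℝ) ≤ 2 ^ (n - C * m * b) := by
        refine (hdeg x).le.trans ?_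
        rw [← Real.rpow_natCast 2 (n - C * m * b), Nat.cast_sub (by omega)]
        exact Real.rpow_le_rpow_of_exponent_le (by norm_num) (by nlinarith)
      exact_mod_cast a1
  · have hle : (n : ℝ) - (4 * (C * (4 / δ + 1) * 2) + C ^ 2) * (n : ℝ) ^ δ ≤ 0 := by
      rcases not_and_or.mp hbig with h | h
      · have : (n : ℝ) ≤ 4 * ((C * m * b : ℕ) : ℝ) := by exact_mod_cast (not_le.mp h).le
        nlinarith
      · have : (n : ℝ) ≤ C ^ 2 := by exact_mod_cast not_lt.mp h
        nlinarith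
    have hF : F = ∅ := by
      rw [eq_empty_iff_forall_notMem]
      intro A hA
      obtain ⟨x, hx⟩ : A.Nonempty := by rw [← card_pos, hunif A hA]; omega
      have a1 := (hdeg x).trans_le (Real.rpow_le_one_of_one_le_of_nonpos (by norm_num) hle)
      have a2 : (F.filter (fun A => x ∈ A)).card < 1 := by exact_mod_cast a1
      have : 0 < (F.filter (fun A => x ∈ A)).card := card_pos.mpr ⟨A, mem_filter.mpr ⟨hA, hx⟩⟩
      omega
    subst hF
    apply strat_of_inv ∅ (fun _ _ => True) trivial (by simp)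
    intro M B x _ _ _
    exact ⟨by simp, fun ⟨y, h1, h2⟩ => ⟨y, h1, h2, trivial⟩⟩

end Pool.Agent.Results.MP_614955_co.AlmostDisjointQ1
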