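import Mathlib
import Pool.Agent.Lib.MP_614955_co.CxFinal

set_option autoImplicit false

namespace Pool.Agent.Results.MP_614955_co.Disproof

open Finset Pool.Agent.Lib.MP_614955_co

/-- For every `ε > 0`, every constant `c` and every `n₀` there are `n ≥ n₀` and an `n`-uniform
hypergraph `F` on a finite board `Fin N` with maximum degree less than `2 ^ (n - √n / 46)` and less
than `2 ^ (n - c * n ^ (1/2 - ε))`, on which the first player has a strategy `σ` (history to next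
point) such that in every play `m 0, …, m (N - 1)` in which the second player moves legally at odd
times, the moves of the first player (even times) are legal and occupy a whole winning set. -/
theorem result (ε : ℝ) (hε : 0 < ε) (c : ℝ) (n₀ : ℕ) :
    ∃ (n N : ℕ) (F : Finset (Finset (Fin N))), n₀ ≤ n ∧ (∀ A ∈ F, A.card = n) ∧
    (∀ x : Fin N, ((F.filter (fun A => x ∈ A)).card : ℝ) < (2 : ℝ) ^ ((n : ℝ) - Real.sqrt n / 46)) ∧
    (∀ x : Fin N, ((F.filter (fun A => x ∈ A)).card : ℝ) <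
      (2 : ℝ) ^ ((n : ℝ) - c * (n : ℝ) ^ (1 / 2 - ε))) ∧
    ∃ σ : List (Fin N) → Fin N, ∀ m : ℕ → Fin N,
      (∀ k < N, Even k → m k = σ (List.ofFn (fun i : Fin k => m i.val))) →
      (∀ k < N, Odd k → ∀ i < k, m i ≠ m k) →
      (∀ k < N, Even k → ∀ i < k, m i ≠ m k) ∧
      ∃ A ∈ F, ∀ x ∈ A, ∃ k < N, Even k ∧ m k = x := by
  obtain ⟨W, hW⟩ := Filter.eventually_atTop.mp
    ((tendsto_rpow_atTop hε).eventually_ge_atTop (46 * c))
  obtain ⟨w, hw⟩ : ∃ w, w = 73728 + n₀ + ⌈W⌉₊ := ⟨_, rfl⟩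
  obtain ⟨n, hn⟩ : ∃ n, n = 2048 * w ^ 2 := ⟨_, rfl⟩
  obtain ⟨N, F, h1, h2, h3⟩ := Cx.exists_fin w n (by omega) hn
  have hwn : w ≤ n := by nlinarith
  have hc : c * (n : ℝ) ^ (1 / 2 - ε) ≤ Real.sqrt n / 46 := by
    have n0 : (0 : ℝ) < n := by exact_mod_cast (show 0 < n by omega)
    have a1 := hW n ((Nat.le_ceil W).trans (by exact_mod_cast (show ⌈W⌉₊ ≤ n by omega)))
    have a2 : Real.sqrt n = (n : ℝ) ^ ε * (n : ℝ) ^ (1 / 2 - ε) := by
      rw [← Real.rpow_add n0, Real.sqrt_eq_rpow]; congr 1; ring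
    have a3 := mul_le_mul_of_nonneg_right a1 (Real.rpow_nonneg n0.le (1 / 2 - ε))
    linarith
  exact ⟨n, N, F, by omega, h1, fun x => Cx.lt_rpow _ w n hn (h2 x),
    fun x => (Cx.lt_rpow _ w n hn (h2 x)).trans_le
      (Real.rpow_le_rpow_of_exponent_le one_le_two (sub_le_sub_left hc _)), h3⟩

end Pool.Agent.Results.MP_614955_co.Disproof
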