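import Mathlib
import Pool.Agent.Lib.MP_614955_co.LocalES
import Pool.Agent.Lib.MP_614955_co.Game

set_option autoImplicit false

namespace Pool.Agent.Results.MP_614955_co.ExponentialDraw

open Finset Pool.Agent.Lib.MP_614955_co Pool.Agent.Lib.MP_614955_co.Mach

/-- Let `F` be any `n`-uniform hypergraph with maximum degree at most `d`, where
`10^14 * log (n d + 3) ≤ n`.  Then the second player forces a Strong Draw: he has a strategy
`τ` (history to next point) such that in every play `m 0, m 1, …` in which the first player moves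
legally at even times, his own moves (odd times) are legal and hit every winning set. -/
theorem result {V : Type*} [Fintype V] [DecidableEq V] [Nonempty V] (F : Finset (Finset V))
    (n d : ℕ)
    (hunif : ∀ A ∈ F, A.card = n)
    (hdeg : ∀ x : V, (F.filter (fun A => x ∈ A)).card ≤ d)
    (hnd : 10 ^ 14 * Real.log (n * d + 3) ≤ n) :
    ∃ τ : List V → V, ∀ m : ℕ → V,
      (∀ k < Fintype.card V, Odd k → m k = τ (List.ofFn (fun i : Fin k => m i.val))) →
      (∀ k < Fintype.card V, Even k → ∀ i < k, m i ≠ m k) →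
      (∀ k < Fintype.card V, Odd k → ∀ i < k, m i ≠ m k) ∧
      ∀ A ∈ F, ∃ k < Fintype.card V, Odd k ∧ m k ∈ A := by
  set L := Real.log (n * d + 3) with hLdef
  have hpos : (0 : ℝ) ≤ n * d := by positivity
  have heL : Real.exp L = n * d + 3 := Real.exp_log (by linarith)
  have hL : 1 ≤ L := by
    rw [hLdef, Real.le_log_iff_exp_le (by linarith)]
    have := Real.exp_one_lt_d9
    linarith
  have hn : (10 : ℝ) ^ 14 ≤ n := by nlinarith
  have hn1 : 1 ≤ n := by
    have : (1 : ℝ) ≤ n := by linarith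
    exact_mod_cast this
  obtain ⟨δ, d1, d2, d3, d4, d5, d6⟩ := exists_dist F n d (fun A hA => (hunif A hA).le) hdeg L hL
    (by linarith)
  have hd1 : (0 : ℝ) < d + 1 := by positivity
  obtain ⟨P, p1, p2, p3, p4⟩ := localES δ d1 d2 d3 L hL d4 _ d5 (1 / 4) (by norm_num) le_rfl 1 le_rfl
    (fun z => F.filter (fun A => z ∈ A)) id (fun _ => 1 / (d + 1)) (fun _ => by positivity)
    (fun z A hA p hp => d6 A (mem_filter.mp hA).1 z (mem_filter.mp hA).2 p hp)
    (fun z => by
      have h1 : ((F.filter (fun A => z ∈ A)).card : ℝ) ≤ d := by exact_mod_cast hdeg z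
      rw [sum_const, nsmul_eq_mul, mul_one_div, div_le_one hd1]
      linarith)
  refine strat_of_inv F (fun M B => Disjoint M B ∧ P (univ \ (M ∪ B)) M B) ⟨by simp, by simpa using p1⟩
    (fun A hA => by rw [← card_pos, hunif A hA]; omega) ?_
  rintro M B x ⟨hd, hP⟩ hM hB
  have hx : x ∈ univ \ (M ∪ B) := by simp [hM, hB]
  obtain ⟨q1, q2⟩ := p3 _ M B x hP hx
  have hdB : Disjoint (insert x M) B := by rw [disjoint_insert_left]; exact ⟨hB, hd⟩
  refine ⟨fun A hA hs => ?_, fun ⟨y, hy1, hy2⟩ => ?_⟩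
  · obtain ⟨z, hz⟩ : A.Nonempty := by rw [← card_pos, hunif A hA]; omega
    have h1 := p4 _ _ _ q2 z A (mem_filter.mpr ⟨hA, hz⟩) (hdB.mono_left hs)
    simp only [id, inter_eq_left.mpr hs, hunif A hA] at h1
    have h2 : Real.exp (1 / 3) ≤ 2 - 2 * (1 / 4) := by
      have := Real.exp_bound_div_one_sub_of_interval' (x := 1 / 3) (by norm_num) (by norm_num)
      linarith
    have h3 : Real.exp (n * (1 / 3)) ≤ (2 - 2 * (1 / 4) : ℝ) ^ n := by
      rw [Real.exp_nat_mul]; exact pow_le_pow_left₀ (Real.exp_pos _).le h2 n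
    have h4 : (d + 1 : ℝ) ≤ Real.exp L := by
      have : (1 : ℝ) ≤ n := by linarith
      have : (0 : ℝ) ≤ d := by positivity
      nlinarith
    rw [one_div_mul_eq_div, div_le_iff₀ hd1] at h1
    have h5 := h3.trans (h1.trans (mul_le_mul_of_nonneg_left h4 (Real.exp_pos _).le))
    rw [← Real.exp_add, Real.exp_le_exp] at h5
    norm_num at h5
    linarith
  · obtain ⟨x', hx', hP'⟩ := q1 (univ \ (insert x M ∪ B))
      (sdiff_subset_sdiff Subset.rfl (union_subset_union_left (subset_insert _ _)))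
      ⟨y, mem_sdiff.mpr ⟨mem_univ _, fun h => (mem_union.mp h).elim hy1 hy2⟩⟩
    have h1 := (mem_sdiff.mp hx').2
    rw [mem_union, not_or] at h1
    refine ⟨x', h1.1, h1.2, by rw [disjoint_insert_right]; exact ⟨h1.1, hdB⟩, p2 _ _ _ _ hP' ?_⟩
    exact sdiff_subset_sdiff Subset.rfl (union_subset_union_right (subset_insert _ _))

end Pool.Agent.Results.MP_614955_co.ExponentialDraw
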